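import Pool.Agent.W811.Nd.Abs

/-! Project ND: a C^1 diffeomorphism is almost affine at small scales. -/

set_option autoImplicit false

open Set

namespace Pool.Agent.W597.Nd

open Pool.Agent.W811.Nd

theorem uni (S U : Set ℝ) (f : ℝ → ℝ) (hS : IsCompact S) (hU : IsOpen U) (hSU : S ⊆ U)
    (hf : ContDiffOn ℝ 1 f U) (hne : ∀ x ∈ U, deriv f x ≠ 0) (ε : ℝ) (hε : 0 < ε) :
    ∃ r > 0, ∀ x₀ ∈ S, ∀ x y, |x - x₀| ≤ r → |y - x₀| ≤ r →
      (1 - ε) * |deriv f x₀| * |x - y| ≤ |f x - f y| ∧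
        |f x - f y| ≤ (1 + ε) * |deriv f x₀| * |x - y| := by
  rcases S.eq_empty_or_nonempty with hE | ⟨s, hs⟩
  · exact ⟨1, one_pos, fun x₀ hx₀ => by rw [hE] at hx₀; exact absurd hx₀ (notMem_empty _)⟩
  obtain ⟨δ, hδ, hδU⟩ := hS.exists_cthickening_subset_open hU hSU
  set K := Metric.cthickening δ S with hK
  have hKc : IsCompact K := hS.cthickening
  have hdc : ContinuousOn (deriv f) K :=
    (hf.continuousOn_deriv_of_isOpen hU le_rfl).mono hδU
  have hKne : K.Nonempty := ⟨s, Metric.self_subset_cthickening S hs⟩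
  obtain ⟨z, hz, hzmin⟩ := hKc.exists_isMinOn hKne hdc.abs
  set c := |deriv f z| with hc
  have hc0 : 0 < c := abs_pos.2 (hne z (hδU hz))
  have huc := hKc.uniformContinuousOn_of_continuous hdc
  rw [Metric.uniformContinuousOn_iff] at huc
  obtain ⟨δ', hδ', hδ'2⟩ := huc (ε * c) (by positivity)
  refine ⟨min δ (δ' / 2), lt_min hδ (by positivity), ?_⟩
  intro x₀ hx₀ x y hx hy
  have hx₀K : x₀ ∈ K := Metric.self_subset_cthickening S hx₀
  set r := min δ (δ' / 2) with hr
  have hI : ∀ t ∈ Icc (x₀ - r) (x₀ + r), t ∈ K ∧ |deriv f t - deriv f x₀| ≤ ε * |deriv f x₀| := by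
    intro t ht
    have h1 : |t - x₀| ≤ r := by
      rw [abs_le]; constructor <;> linarith [ht.1, ht.2]
    have h2 : t ∈ K := Metric.mem_cthickening_of_dist_le t x₀ δ S hx₀ (by
      rw [Real.dist_eq]; exact h1.trans (min_le_left _ _))
    refine ⟨h2, ?_⟩
    have h3 := hδ'2 t h2 x₀ hx₀K (by
      rw [Real.dist_eq]
      have := h1.trans (min_le_right _ _)
      linarith)
    rw [Real.dist_eq] at h3
    have h4 : c ≤ |deriv f x₀| := hzmin hx₀K
    exact h3.le.trans (mul_le_mul_of_nonneg_left h4 hε.le)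
  have hdiff : ∀ t ∈ Icc (x₀ - r) (x₀ + r), DifferentiableAt ℝ f t := by
    intro t ht
    have htU := hδU (hI t ht).1
    exact ((hf.differentiableOn one_ne_zero) t htU).differentiableAt (hU.mem_nhds htU)
  have hxI : x ∈ Icc (x₀ - r) (x₀ + r) := by
    rw [abs_le] at hx; constructor <;> linarith [hx.1, hx.2]
  have hyI : y ∈ Icc (x₀ - r) (x₀ + r) := by
    rw [abs_le] at hy; constructor <;> linarith [hy.1, hy.2]
  have hmv := Convex.norm_image_sub_le_of_norm_deriv_le (𝕜 := ℝ)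
    (f := fun t => f t - deriv f x₀ * t) (C := ε * |deriv f x₀|)
    (s := Icc (x₀ - r) (x₀ + r)) (x := y) (y := x)
    (fun t ht => (hdiff t ht).sub (by fun_prop)) (fun t ht => by
      have h1 : HasDerivAt (fun t => f t - deriv f x₀ * t) (deriv f t - deriv f x₀) t := by
        have h2 := (hdiff t ht).hasDerivAt.sub ((hasDerivAt_id t).const_mul (deriv f x₀))
        rw [mul_one] at h2
        exact h2
      rw [h1.deriv, Real.norm_eq_abs]
      exact (hI t ht).2) (convex_Icc _ _) hyI hxI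
  rw [Real.norm_eq_abs, Real.norm_eq_abs] at hmv
  have e1 : f x - deriv f x₀ * x - (f y - deriv f x₀ * y) =
      (f x - f y) - deriv f x₀ * (x - y) := by ring
  rw [e1] at hmv
  have h5 := abs_sub_abs_le_abs_sub (f x - f y) (deriv f x₀ * (x - y))
  have h6 := abs_sub_abs_le_abs_sub (deriv f x₀ * (x - y)) (f x - f y)
  rw [abs_sub_comm (deriv f x₀ * (x - y)) (f x - f y)] at h6
  rw [abs_mul] at h5 h6
  constructor
  · nlinarith
  · nlinarith

theorem inv_deriv {U V : Set ℝ} {f g : ℝ → ℝ} (hU : IsOpen U) (hV : IsOpen V)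
    (hfU : MapsTo f U V) (hgf : ∀ x ∈ U, g (f x) = x)
    (hf : ContDiffOn ℝ 1 f U) (hg : ContDiffOn ℝ 1 g V) (x : ℝ) (hx : x ∈ U) :
    deriv g (f x) * deriv f x = 1 := by
  have h1 : DifferentiableAt ℝ f x :=
    ((hf.differentiableOn one_ne_zero) x hx).differentiableAt (hU.mem_nhds hx)
  have h2 : DifferentiableAt ℝ g (f x) :=
    ((hg.differentiableOn one_ne_zero) _ (hfU hx)).differentiableAt (hV.mem_nhds (hfU hx))
  have h3 : HasDerivAt (g ∘ f) (deriv g (f x) * deriv f x) x :=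
    h2.hasDerivAt.comp x h1.hasDerivAt
  have h4 : (g ∘ f) =ᶠ[nhds x] id := by
    filter_upwards [hU.mem_nhds hx] with t ht using hgf t ht
  have h5 : HasDerivAt id (deriv g (f x) * deriv f x) x := h3.congr_of_eventuallyEq h4.symm
  exact h5.unique (hasDerivAt_id x)

theorem cal : TCal := by
  intro S U V f g hS hU hV hSU hfU hgV hgf hfg hf hg ε hε hε1
  have h1 := inv_deriv hU hV hfU hgf hf hg
  have h2 := inv_deriv hV hU hgV hfg hg hf
  have hf0 : ∀ x ∈ U, deriv f x ≠ 0 := by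
    intro x hx h
    have := h1 x hx
    rw [h, mul_zero] at this
    exact zero_ne_one this
  have hg0 : ∀ x ∈ V, deriv g x ≠ 0 := by
    intro x hx h
    have := h2 x hx
    rw [h, mul_zero] at this
    exact zero_ne_one this
  have hSc : IsCompact (f '' S) := hS.image_of_continuousOn (hf.continuousOn.mono hSU)
  have hSV : f '' S ⊆ V := by
    rintro _ ⟨x, hx, rfl⟩
    exact hfU (hSU hx)
  obtain ⟨r1, hr1, hF⟩ := uni S U f hS hU hSU hf hf0 ε hε
  obtain ⟨r2, hr2, hG⟩ := uni (f '' S) V g hSc hV hSV hg hg0 ε hε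
  obtain ⟨C1, hC1⟩ := hS.exists_bound_of_continuousOn
    ((hf.continuousOn_deriv_of_isOpen hU le_rfl).mono hSU)
  obtain ⟨C2, hC2⟩ := hSc.exists_bound_of_continuousOn
    ((hg.continuousOn_deriv_of_isOpen hV le_rfl).mono hSV)
  set M := max (max C1 C2) 1 with hM
  have hM0 : 0 < M := lt_of_lt_of_le one_pos (le_max_right _ _)
  refine ⟨min r1 r2, M, fun x => |deriv f x|, lt_min hr1 hr2, hM0, ?_, ?_, ?_⟩
  · intro x hx
    refine ⟨abs_pos.2 (hf0 x (hSU hx)), ?_, ?_⟩
    · have := hC1 x hx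
      rw [Real.norm_eq_abs] at this
      exact this.trans ((le_max_left _ _).trans (le_max_left _ _))
    · have h3 := hC2 (f x) ⟨x, hx, rfl⟩
      rw [Real.norm_eq_abs] at h3
      have h4 := h3.trans ((le_max_right C1 C2).trans (le_max_left _ 1))
      have h5 := congrArg abs (h1 x (hSU hx))
      rw [abs_mul, abs_one] at h5
      rw [← h5]
      exact mul_le_mul_of_nonneg_right h4 (abs_nonneg _)
  · intro x₀ hx₀ x y hx hy
    exact hF x₀ hx₀ x y (hx.trans (min_le_left _ _)) (hy.trans (min_le_left _ _))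
  · intro x₀ hx₀ x y hx hy
    obtain ⟨h3, h4⟩ := hG (f x₀) ⟨x₀, hx₀, rfl⟩ x y (hx.trans (min_le_right _ _))
      (hy.trans (min_le_right _ _))
    have h5 := congrArg abs (h1 x₀ (hSU hx₀))
    rw [abs_mul, abs_one] at h5
    have h6 := abs_nonneg (deriv f x₀)
    constructor
    · calc (1 - ε) * |x - y| = (1 - ε) * (|deriv g (f x₀)| * |deriv f x₀|) * |x - y| := by
            rw [h5]; ring
        _ = |deriv f x₀| * ((1 - ε) * |deriv g (f x₀)| * |x - y|) := by ring
        _ ≤ _ := mul_le_mul_of_nonneg_left h3 h6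
    · calc |deriv f x₀| * |g x - g y| ≤
            |deriv f x₀| * ((1 + ε) * |deriv g (f x₀)| * |x - y|) :=
              mul_le_mul_of_nonneg_left h4 h6
        _ = (1 + ε) * (|deriv g (f x₀)| * |deriv f x₀|) * |x - y| := by ring
        _ = (1 + ε) * |x - y| := by rw [h5]; ring

end Pool.Agent.W597.Nd
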